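import Pool.Agent.H39.KN.StrD

/-!
# Nef and effective classes on a threefold with trivial canonical class

`Y` is an integral scheme, proper and smooth over `ℂ`, of dimension `3`, with an ample divisor.  `ν` maps the Cartier
divisors onto `ℤ ^ r`, with kernel the numerically trivial divisors.  The hypothesis: for every ample divisor `A` the
Hilbert polynomial of `A` has no quadratic term and a positive linear term.  By the theorem of Riemann and Roch this says
that `K ≡ 0` and `c₂ A > 0` for all ample `A`.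

There are a symmetric trilinear form `T` (the intersection form), a linear form `l` (`c₂ / 12`) and a number `c` which
give the Hilbert polynomials (`HilbF`), such that

* every nef Cartier divisor `D` with `l D > 0` is numerically equivalent to an effective divisor with real coefficients
  (`EffR`);
* every REAL nef class `p` with `l p > 0` has one of the following properties:
  (I) all `y` near `p` in the smallest rational subspace which contains `p` are nef (`RatIn`), and `p` is effective,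
  (II) `p = q + s G`, `s > 0`, `q` and `G` nef, `G` an integral class, `q . q = 0`, `G . G = 0`, `l q ≤ 0` (`ExcF`);
* if every nef class `p` with `p ^ 3 = 0` and `l p = 0` is a nonnegative combination of integral nef classes (`HulR`), then
  `Nef ⊆ Nef^+`;
* if every nef Cartier divisor `D` with `D ^ 3 = 0` and `l D = 0` is effective, then `Nef^+ ⊆ Eff`.

So the second half of Q1 (`Nef^+ = Nef^e`) is reduced to the classes with `p ^ 3 = 0` and `c₂ p = 0`.
-/

set_option autoImplicit false

namespace Pool.Agent.Results.MP_e49dc9_ag.EffectiveNefClasses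

open AlgebraicGeometry Pool.Agent.H57.KM Pool.Agent.H54.RV Pool.Agent.H83.TU Pool.Agent.H39.TZ Pool.Agent.H20.TD
  Pool.Agent.H20.TP Pool.Agent.H39.RT Pool.Agent.H39.KN
open Pool.Agent.H20.AB (HulR)

theorem result {Y : Scheme.{0}} [IsIntegral Y] (f : Y ⟶ Spec (.of ℂ)) [IsProper f] [Smooth f]
    (hd : Algebra.trdeg ℂ (FF f) = 3) (hA : ∃ D : Cart (mdl f), Ample D) {r : ℕ}
    (ν : Cart (mdl f) →* Multiplicative (Fin r → ℤ)) (hs : Function.Surjective ν) (hν : ∀ D, ν D = 1 ↔ NumZ D)
    (hH : ∀ A : Cart (mdl f), Ample A → ∃ a b c : ℝ, 0 < b ∧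
      ∃ n₀ : ℕ, ∀ n : ℕ, n₀ ≤ n → (h0 A n : ℝ) = a * (n : ℝ) ^ 3 + b * n + c) :
    ∃ (T : (Fin r → ℝ) → (Fin r → ℝ) → (Fin r → ℝ) → ℝ) (l : (Fin r → ℝ) → ℝ) (c : ℝ), HilbF ν T l c ∧
      (∀ D : Cart (mdl f), Pool.Agent.H20.TP.cR ν D ∈ closure (AmpR ν) → 0 < l (Pool.Agent.H20.TP.cR ν D) →
        Pool.Agent.H39.TZ.EffR ν (Pool.Agent.H20.TP.cR ν D)) ∧
      (∀ p ∈ closure (AmpR ν), 0 < l p → (RatIn ν p ∧ Pool.Agent.H39.TZ.EffR ν p) ∨ ExcF ν T l p) ∧
      ((∀ p ∈ closure (AmpR ν), T p p p = 0 → l p = 0 → HulR ν p) → NefC (mdl f) ⊆ NefP (mdl f)) ∧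
      ((∀ D : Cart (mdl f), Pool.Agent.H20.TP.cR ν D ∈ closure (AmpR ν) →
          T (Pool.Agent.H20.TP.cR ν D) (Pool.Agent.H20.TP.cR ν D) (Pool.Agent.H20.TP.cR ν D) = 0 →
          l (Pool.Agent.H20.TP.cR ν D) = 0 → Pool.Agent.H39.TZ.EffR ν (Pool.Agent.H20.TP.cR ν D)) →
        NefP (mdl f) ⊆ EffC (mdl f)) :=
  Pool.Agent.H39.KN.b_end f hd hA ν hs hν hH

end Pool.Agent.Results.MP_e49dc9_ag.EffectiveNefClasses
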