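import Pool.Agent.H20.P3G.FinMR

/-!
# The cone conjecture for threefolds whose automorphism group has the maximal rank

`Y` is an integral scheme, proper and smooth over `ℂ`, of dimension `3`, with an ample divisor.  `ν` maps the Cartier
divisors onto `ℤ ^ (r + 2)`, `r ≥ 1`, with kernel the numerically trivial divisors: the Picard number is `r + 2`.  The
hypotheses: for every ample divisor `A` the Hilbert polynomial of `A` has no quadratic term and a positive linear term (by the
theorem of Riemann and Roch this says that `K ≡ 0` and `c₂ A > 0` for all ample `A`; if `K ≡ 0`, the second condition is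
`c₂ ≠ 0`); the canonical class is numerically trivial (`KZero`); numerically trivial divisors are torsion (`NumT`: the
irregularity is `0`); the group through which the automorphisms of `Y` act on `N¹(Y)` (`AutS f` is the set of the maps of
`N¹(Y)` given by the automorphisms) contains a free abelian group of rank `r`, or `r = 1` (Picard number three) and this
group is infinite.

Then the automorphisms have a rational polyhedral fundamental domain on the convex hull `Nef⁺` of the rational nef classes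
(`DomY`).  There are nef divisors `D`, not numerically trivial, with `l D = 0` (`l = c₂ / 12`), and Q1 holds for `Y` (`Q1Y`:
the automorphisms have a rational polyhedral fundamental domain on the effective nef cone) if and only if one of them is
effective.
-/

set_option autoImplicit false

namespace Pool.Agent.Results.MP_e49dc9_ag.MaximalRank

open AlgebraicGeometry Pool.Agent.H57.KM Pool.Agent.H54.RV Pool.Agent.H83.TU Pool.Agent.H39.TZ Pool.Agent.H20.TD
  Pool.Agent.H39.KN

theorem result {Y : Scheme.{0}} [IsIntegral Y] (f : Y ⟶ Spec (.of ℂ)) [IsProper f] [Smooth f]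
    (hd : Algebra.trdeg ℂ (FF f) = 3) (hA : ∃ D : Cart (mdl f), Ample D) {r : ℕ} (hr : 1 ≤ r)
    (ν : Cart (mdl f) →* Multiplicative (Fin (r + 2) → ℤ)) (hs : Function.Surjective ν) (hν : ∀ D, ν D = 1 ↔ NumZ D)
    (hH : ∀ A : Cart (mdl f), Ample A → ∃ a b c : ℝ, 0 < b ∧
      ∃ n₀ : ℕ, ∀ n : ℕ, n₀ ≤ n → (h0 A n : ℝ) = a * (n : ℝ) ^ 3 + b * n + c)
    (hK : KZero (mdl f)) (hq : NumT (mdl f))
    (hG : (r = 1 ∧ (AutS f).Infinite) ∨ ∃ a : (Fin r → ℤ) → N1 (mdl f) → N1 (mdl f), Function.Injective a ∧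
      (∀ s t, a (s + t) = a s ∘ a t) ∧ ∀ s, a s ∈ AutS f) :
    DomY f ∧
    ∃ (T : (Fin (r + 2) → ℝ) → (Fin (r + 2) → ℝ) → (Fin (r + 2) → ℝ) → ℝ) (l : (Fin (r + 2) → ℝ) → ℝ) (c : ℝ),
      HilbF ν T l c ∧
      (∃ D : Cart (mdl f), Pool.Agent.H20.TP.cR ν D ∈ closure (AmpR ν) ∧ Pool.Agent.H20.TP.cR ν D ≠ 0 ∧
        l (Pool.Agent.H20.TP.cR ν D) = 0) ∧
      (Q1Y f ↔ ∃ D : Cart (mdl f), Pool.Agent.H20.TP.cR ν D ∈ closure (AmpR ν) ∧ Pool.Agent.H20.TP.cR ν D ≠ 0 ∧
        l (Pool.Agent.H20.TP.cR ν D) = 0 ∧ Pool.Agent.H39.TZ.EffR ν (Pool.Agent.H20.TP.cR ν D)) := by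
  obtain ⟨T, l, c, h1, h2, h3, h4⟩ := Pool.Agent.H20.P3G.mr_fin f hd hA hr ν hs hν hH hK hq hG
  exact ⟨h2, T, l, c, h1, h3, h4⟩

end Pool.Agent.Results.MP_e49dc9_ag.MaximalRank
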