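import Pool.Agent.H83.TU.SE
import Pool.Agent.H20.TU.SMB
import Pool.Agent.H20.TK.K2
import Pool.Agent.H32.TK.T0

/-!
# The cone conjecture for threefolds with trivial canonical class and Picard number two

`Y` is an integral scheme, proper and smooth over `ℂ`, of dimension `3`, with an ample divisor.  `ν` maps the Cartier
divisors onto `ℤ²`, with kernel the numerically trivial divisors (`NumZ D`: `A + D`, `A - D` are ample for all ample
`A`): the Picard number is `2`.  `cv ν D` is the class of `D` in `ℝ²`; `AmpV ν`, `EffV ν` are the cones of the ample and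
of the effective classes, `closure (AmpV ν)` is the nef cone; `h0 D n = dim H⁰(n D)`.

The hypothesis: for every ample divisor `A` the Hilbert polynomial of `A` (the polynomial in `n` which is
`dim H⁰(n A)` for large `n`) has no quadratic term and a positive linear term.  By the theorem of Riemann and Roch it is
`(A³ / 6) n³ - (K A² / 4) n² + ((K² + c₂) A / 12) n + χ(O)`.  So the hypothesis says that `K ≡ 0` and `c₂ A > 0` for
all ample `A`; if `K ≡ 0`, the second condition is `c₂ ≠ 0`.

Then the nef cone is generated by two integral classes, and the automorphisms have a rational polyhedral fundamental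
domain on it.  There is a linear form `l` (it is `c₂ / 12`) with `l A` as linear coefficients such that all nef classes
`p` with `l p > 0` are effective.  The automorphisms have a rational polyhedral fundamental domain on the effective nef
cone if and only if all nef classes are effective; so they have one if `l` is positive on the nonzero nef classes which
are not in the interior of the effective cone.
-/

set_option autoImplicit false

namespace Pool.Agent.Results.MP_e49dc9_ag.PicardTwoThreefolds

open AlgebraicGeometry Pool.Agent.H57.KM Pool.Agent.H54.RV Pool.Agent.H83.TU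

theorem result {Y : Scheme.{0}} [IsIntegral Y] (f : Y ⟶ Spec (.of ℂ)) [IsProper f] [Smooth f]
    (hd : Algebra.trdeg ℂ (FF f) = 3) (hA : ∃ D : Cart (mdl f), Ample D)
    (ν : Cart (mdl f) →* Multiplicative (Fin 2 → ℤ)) (hν : Num ν)
    (hH : ∀ A : Cart (mdl f), Ample A → ∃ a b c : ℝ, 0 < b ∧
      ∃ n₀ : ℕ, ∀ n : ℕ, n₀ ≤ n → (h0 A n : ℝ) = a * (n : ℝ) ^ 3 + b * n + c) :
    (∃ u w : Fin 2 → ℤ, closure (AmpV ν) = {v | ∃ a b : ℝ, 0 ≤ a ∧ 0 ≤ b ∧ v = a • toR u + b • toR w}) ∧
      FundS (autS f ν) (closure (AmpV ν)) ∧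
      (FundS (autS f ν) (closure (AmpV ν) ∩ EffV ν) ↔ closure (AmpV ν) ⊆ EffV ν) ∧
      ∃ l : V 2 →ₗ[ℝ] ℝ,
        (∀ A : Cart (mdl f), Ample A → ∃ a c : ℝ, ∃ n₀ : ℕ, ∀ n : ℕ, n₀ ≤ n →
          (h0 A n : ℝ) = a * (n : ℝ) ^ 3 + l (cv ν A) * n + c) ∧
        (∀ p ∈ closure (AmpV ν), 0 < l p → p ∈ EffV ν) ∧
        ((∀ p ∈ closure (AmpV ν), p ≠ 0 → p ∉ interior (EffV ν) → 0 < l p) →
          FundS (autS f ν) (closure (AmpV ν) ∩ EffV ν)) := by
  have hS : ∀ x, Pool.Agent.H39.TU.SmP (mdl f) x := Pool.Agent.H20.TU.smP_mdl f hd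
  have h := Pool.Agent.H20.TU.hyp_smooth f hd hA
  have := Pool.Agent.H32.TK.t0_mdl f
  simp only [autS_nu, fundS_iff]
  exact Pool.Agent.H20.TK.k2 h hS (autG f) hν hH

end Pool.Agent.Results.MP_e49dc9_ag.PicardTwoThreefolds
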