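import Pool.Agent.H39.KN.StrC

/-!
# The nef cone of a threefold with trivial canonical class where `c₂` is positive

`Y` is an integral scheme, proper and smooth over `ℂ`, of dimension `3`, with an ample divisor.  `ν` maps the Cartier
divisors onto `ℤ ^ r`, with kernel the numerically trivial divisors.  The hypothesis: for every ample divisor `A` the
Hilbert polynomial of `A` has no quadratic term and a positive linear term.  By the theorem of Riemann and Roch this says
that `K ≡ 0` and `c₂ A > 0` for all ample `A`.

There are a symmetric trilinear form `T` (the intersection form), a linear form `l` (`c₂ / 12`) and a number `c` which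
give the Hilbert polynomials (`HilbF`), with the following properties.

* The local theorem.  Suppose that the canonical class is numerically trivial (`KZero`): there is an alternating derivation
  `J` in three arguments of the function field (`J a b c` is `da ∧ db ∧ dc` divided by a rational `3`-form) with numerically
  trivial divisor.  Suppose that numerically trivial divisors are torsion (`NumT`, this means that the irregularity is zero).
  Let `p ≠ 0` be a REAL nef class such that `l w > 0` for all nef `w ≠ 0` with `(p + w) ^ 3 = 0`.  Then near `p` the nef cone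
  is defined by finitely many integral functionals (`RatAt`), and `p` is effective (`EffR`).
* The global theorem.  If `l p > 0` for all nef `p ≠ 0` with `p ^ 3 = 0`, then the nef cone is the convex hull of the rational
  nef classes, and all nef classes are effective; if also `KZero` and `NumT`, then the nef cone is rational polyhedral, and
  Q1 holds for `Y`.

Abundance for nef divisors `P` with `P . P . P = 0`, `P . P ≠ 0`, in the form `h0 (n P) ≥ c n ^ 2`, is part of the proof.
-/

set_option autoImplicit false

namespace Pool.Agent.Results.MP_e49dc9_ag.PositiveSecondChern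

open AlgebraicGeometry Pool.Agent.H57.KM Pool.Agent.H54.RV Pool.Agent.H83.TU Pool.Agent.H39.TZ Pool.Agent.H20.TD
  Pool.Agent.H39.KN

theorem result {Y : Scheme.{0}} [IsIntegral Y] (f : Y ⟶ Spec (.of ℂ)) [IsProper f] [Smooth f]
    (hd : Algebra.trdeg ℂ (FF f) = 3) (hA : ∃ D : Cart (mdl f), Ample D) {r : ℕ}
    (ν : Cart (mdl f) →* Multiplicative (Fin r → ℤ)) (hs : Function.Surjective ν) (hν : ∀ D, ν D = 1 ↔ NumZ D)
    (hH : ∀ A : Cart (mdl f), Ample A → ∃ a b c : ℝ, 0 < b ∧
      ∃ n₀ : ℕ, ∀ n : ℕ, n₀ ≤ n → (h0 A n : ℝ) = a * (n : ℝ) ^ 3 + b * n + c) :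
    ∃ (T : (Fin r → ℝ) → (Fin r → ℝ) → (Fin r → ℝ) → ℝ) (l : (Fin r → ℝ) → ℝ) (c : ℝ), HilbF ν T l c ∧
      (KZero (mdl f) ∧ NumT (mdl f) → ∀ p ∈ closure (AmpR ν), p ≠ 0 →
        (∀ w ∈ closure (AmpR ν), w ≠ 0 → T (p + w) (p + w) (p + w) = 0 → 0 < l w) → RatAt ν p ∧ EffR ν p) ∧
      ((∀ p ∈ closure (AmpR ν), p ≠ 0 → T p p p = 0 → 0 < l p) → NefC (mdl f) ⊆ NefP (mdl f) ∧
        NefC (mdl f) ⊆ EffC (mdl f) ∧ (KZero (mdl f) ∧ NumT (mdl f) → RatPolyC (NefC (mdl f)) ∧ Q1Y f)) :=
  Pool.Agent.H39.KN.c_end f hd hA ν hs hν hH

end Pool.Agent.Results.MP_e49dc9_ag.PositiveSecondChern
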